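import Mathlib
import Pool.Agent.Run7.h989.CC.Sub

/-!
Close II_1 factors have the same coupling constant, whatever the size of the coupling constant.
-/

open scoped ComplexOrder InnerProductSpace ComplexConjugate Topology ENNReal
open Finset Filter

noncomputable section

namespace Pool.Agent.Results.MP_41729c_an.EqualCoupling

section defs

variable {H : Type} [NormedAddCommGroup H] [InnerProductSpace ℂ H] [CompleteSpace H]

/-- `z` is in the centre of `M`. -/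
def IsCentral (M : VonNeumannAlgebra H) (z : H →L[ℂ] H) : Prop := z ∈ M ∧ ∀ a ∈ M, z * a = a * z

/-- The centre of `M` is trivial. -/
def IsFactor (M : VonNeumannAlgebra H) : Prop := ∀ z, IsCentral M z → ∃ c : ℂ, z = c • 1

/-- `M` is infinite dimensional. -/
def IsInfinite (M : VonNeumannAlgebra H) : Prop :=
  ∀ n : ℕ, ∃ x : Fin n → (H →L[ℂ] H), (∀ i, x i ∈ M) ∧ LinearIndependent ℂ x

/-- `τ` is tracial on `M`. -/
def IsTracial (M : VonNeumannAlgebra H) (τ : (H →L[ℂ] H) → ℂ) : Prop :=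
  ∀ x ∈ M, ∀ y ∈ M, τ (x * y) = τ (y * x)

/-- `τ` is faithful on `M`. -/
def IsFaithful (M : VonNeumannAlgebra H) (τ : (H →L[ℂ] H) → ℂ) : Prop :=
  ∀ x ∈ M, τ (star x * x) = 0 → x = 0

/-- On `M`, `τ` is a normal positive linear functional: `τ x = ∑ₖ ⟨ζₖ, x ζₖ⟩` with
`∑ₖ ‖ζₖ‖² < ∞`. -/
def IsNormal (M : VonNeumannAlgebra H) (τ : (H →L[ℂ] H) → ℂ) : Prop :=
  ∃ ζ : ℕ → H, Summable (fun k => ‖ζ k‖ ^ 2) ∧ ∀ x ∈ M, τ x = ∑' k, ⟪ζ k, x (ζ k)⟫_ℂ

/-- `M` is a II_1 factor on `H` and `τ` is its faithful normal tracial state (only the values of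
`τ` at the elements of `M` matter). -/
structure IsIIOneFactor (M : VonNeumannAlgebra H) (τ : (H →L[ℂ] H) → ℂ) : Prop where
  factor : IsFactor M
  infinite : IsInfinite M
  one : τ 1 = 1
  tracial : IsTracial M τ
  faithful : IsFaithful M τ
  normal : IsNormal M τ

/-- The closed unit ball of `M`. -/
def unitBall (M : VonNeumannAlgebra H) : Set (H →L[ℂ] H) := {x | x ∈ M ∧ ‖x‖ ≤ 1}

/-- The Kadison-Kastler distance. -/
def kkDist (M N : VonNeumannAlgebra H) : ℝ := Metric.hausdorffDist (unitBall M) (unitBall N)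

/-- `p` is a projection of `M`. -/
def IsProj (M : VonNeumannAlgebra H) (p : H →L[ℂ] H) : Prop := p ∈ M ∧ star p = p ∧ p * p = p

/-- The vectors `ξ`, `η` generate orthogonal submodules. -/
def IsOrth (M : VonNeumannAlgebra H) (ξ η : H) : Prop := ∀ x ∈ M, ⟪η, x ξ⟫_ℂ = 0

/-- `⟨ξ, x ξ⟩ = τ(x p)` on `M`. -/
def IsTraceVector (M : VonNeumannAlgebra H) (τ : (H →L[ℂ] H) → ℂ) (ξ : H) (p : H →L[ℂ] H) :
    Prop := ∀ x ∈ M, ⟪ξ, x ξ⟫_ℂ = τ (x * p)

/-- Vectors `ξ i` and projections `p i` of `M` with `⟨ξ j, x ξ i⟩ = δ_ij τ(x p i)` for all `x` in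
`M`. Then `x ξ i ↦ x p i` induces an isomorphism of left `M`-modules from the closure of
`⨁ M ξ i` in `H` onto `⨁ L²(M, τ) p i`. -/
structure IsSystem (M : VonNeumannAlgebra H) (τ : (H →L[ℂ] H) → ℂ) {ι : Type}
    (ξ : ι → H) (p : ι → (H →L[ℂ] H)) : Prop where
  proj : ∀ i, IsProj M (p i)
  diag : ∀ i, IsTraceVector M τ (ξ i) (p i)
  orth : ∀ i j, i ≠ j → IsOrth M (ξ i) (ξ j)

/-- The Murray-von Neumann dimension `dim_M H ∈ [0, ∞]`: the supremum of the dimensions `∑ τ(p i)`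
of the submodules of `H` isomorphic to a finite sum `⨁ L²(M, τ) p i`. -/
def vnDim (M : VonNeumannAlgebra H) (τ : (H →L[ℂ] H) → ℂ) : ℝ≥0∞ :=
  ⨆ (n : ℕ) (ξ : Fin n → H) (p : Fin n → (H →L[ℂ] H)) (_ : IsSystem M τ ξ p),
    ∑ i, ENNReal.ofReal (τ (p i)).re

/-- The vectors `x ξ i` span a dense subspace, that is `H ≅ ⨁ L²(M, τ) p i`. -/
def IsComplete (M : VonNeumannAlgebra H) {ι : Type} (ξ : ι → H) : Prop :=
  (Submodule.span ℂ {η : H | ∃ x ∈ M, ∃ i, η = x (ξ i)}).topologicalClosure = ⊤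

end defs

/-- `vnDim` is the usual dimension: it is `∑ τ(p i)` whenever `H ≅ ⨁ L²(M, τ) p i`. -/
def DimensionFormula : Prop :=
  ∀ (H : Type) [NormedAddCommGroup H] [InnerProductSpace ℂ H] [CompleteSpace H]
    (M : VonNeumannAlgebra H) (τ : (H →L[ℂ] H) → ℂ), IsIIOneFactor M τ →
    ∀ (ι : Type) (ξ : ι → H) (p : ι → (H →L[ℂ] H)), IsSystem M τ ξ p → IsComplete M ξ →
    vnDim M τ = ∑' i, ENNReal.ofReal (τ (p i)).re

/-- Any two II_1 factors on any Hilbert space at Kadison-Kastler distance less than `δ` have the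
same coupling constant. -/
def CloseFactorsEqualDim (δ : ℝ) : Prop :=
  ∀ (H : Type) [NormedAddCommGroup H] [InnerProductSpace ℂ H] [CompleteSpace H]
    (M N : VonNeumannAlgebra H) (τ σ : (H →L[ℂ] H) → ℂ), IsIIOneFactor M τ →
    IsIIOneFactor N σ → kkDist M N < δ → vnDim M τ = vnDim N σ

section bridge

open Run7.h989.CC

variable {H : Type} [NormedAddCommGroup H] [InnerProductSpace ℂ H] [CompleteSpace H]
variable {M : VonNeumannAlgebra H} {τ : (H →L[ℂ] H) → ℂ}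

/-- The trace as a linear functional on `M`. -/
def lin (M : VonNeumannAlgebra H) {ζ : ℕ → H} (hζ : Summable fun k => ‖ζ k‖ ^ 2) :
    M.toStarSubalgebra →ₗ[ℂ] ℂ where
  toFun a := om ζ (a : H →L[ℂ] H)
  map_add' a b := om_add hζ _ _
  map_smul' c a := om_smul c _

theorem exists_lin (h : IsIIOneFactor M τ) : ∃ t : M.toStarSubalgebra →ₗ[ℂ] ℂ,
    Sub.IsIIOneFactor M t ∧ ∀ a : M.toStarSubalgebra, t a = τ (a : H →L[ℂ] H) := by
  obtain ⟨ζ, hζ, hτ⟩ := h.normal
  have ht : ∀ a : M.toStarSubalgebra, lin M hζ a = τ (a : H →L[ℂ] H) := fun a => (hτ _ a.2).symm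
  refine ⟨lin M hζ, ⟨fun z hz hc => h.factor z ⟨hz, hc⟩, ?_, ?_, ?_, ?_, ?_, ζ, hζ,
    fun a => rfl⟩, ht⟩
  · intro hfin
    obtain ⟨x, hx, hli⟩ := h.infinite (Module.finrank ℂ M.toStarSubalgebra + 1)
    have h1 : LinearIndependent ℂ fun i => (⟨x i, hx i⟩ : M.toStarSubalgebra) := by
      refine LinearIndependent.of_comp M.toStarSubalgebra.subtype.toLinearMap ?_
      exact hli
    have h2 := h1.fintype_card_le_finrank
    rw [Fintype.card_fin] at h2
    omega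
  · rw [ht]
    exact h.one
  · intro a
    have h1 : lin M hζ (star a * a) = om ζ (star (a : H →L[ℂ] H) * (a : H →L[ℂ] H)) := rfl
    rw [h1, om_star_mul hζ]
    exact_mod_cast tsum_nonneg fun k => by positivity
  · intro a b
    rw [ht, ht]
    exact h.tracial _ a.2 _ b.2
  · intro a h0
    rw [ht] at h0
    exact Subtype.ext (h.faithful _ a.2 h0)

theorem sys_iff {t : M.toStarSubalgebra →ₗ[ℂ] ℂ}
    (ht : ∀ a : M.toStarSubalgebra, t a = τ (a : H →L[ℂ] H)) {ι : Type} [DecidableEq ι] {ξ : ι → H}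
    {p : ι → (H →L[ℂ] H)} (hs : IsSystem M τ ξ p) :
    Sub.IsSystem M t ξ fun i => (⟨p i, (hs.proj i).1⟩ : M.toStarSubalgebra) := by
  refine ⟨fun i => ⟨Subtype.ext (hs.proj i).2.1, Subtype.ext (hs.proj i).2.2⟩, fun i j x => ?_⟩
  split_ifs with hij
  · subst hij
    rw [ht]
    exact hs.diag i _ x.2
  · exact hs.orth i j hij _ x.2

theorem sys_of {t : M.toStarSubalgebra →ₗ[ℂ] ℂ}
    (ht : ∀ a : M.toStarSubalgebra, t a = τ (a : H →L[ℂ] H)) {ι : Type} [DecidableEq ι]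
    {ξ : ι → H} {p : ι → M.toStarSubalgebra} (hs : Sub.IsSystem M t ξ p) :
    IsSystem M τ ξ fun i => (p i : H →L[ℂ] H) := by
  refine ⟨fun i => ⟨(p i).2, congrArg Subtype.val (hs.proj i).1,
    congrArg Subtype.val (hs.proj i).2⟩, fun i x hx => ?_, fun i j hij x hx => ?_⟩
  · have h1 := hs.inner i i ⟨x, hx⟩
    rw [if_pos rfl, ht] at h1
    exact h1
  · have h1 := hs.inner i j ⟨x, hx⟩
    rw [if_neg hij] at h1
    exact h1

theorem vnDim_bridge {t : M.toStarSubalgebra →ₗ[ℂ] ℂ}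
    (ht : ∀ a : M.toStarSubalgebra, t a = τ (a : H →L[ℂ] H)) : vnDim M τ = Sub.vnDim M t := by
  refine le_antisymm ?_ ?_
  · refine iSup_le fun n => iSup_le fun ξ => iSup_le fun p => iSup_le fun hs => ?_
    have hs' : Sub.IsSystem M t ξ fun i => (⟨p i, (hs.proj i).1⟩ : M.toStarSubalgebra) :=
      sys_iff ht hs
    have h2 : ∑ i, ENNReal.ofReal (τ (p i)).re =
        ∑ i, ENNReal.ofReal (t (⟨p i, (hs.proj i).1⟩ : M.toStarSubalgebra)).re :=
      Finset.sum_congr rfl fun i _ => by rw [ht]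
    rw [h2]
    exact le_iSup_of_le n (le_iSup_of_le ξ (le_iSup_of_le _ (le_iSup_of_le hs' le_rfl)))
  · refine iSup_le fun n => iSup_le fun ξ => iSup_le fun p => iSup_le fun hs => ?_
    have h2 : ∑ i, ENNReal.ofReal (t (p i)).re = ∑ i, ENNReal.ofReal (τ (p i : H →L[ℂ] H)).re :=
      Finset.sum_congr rfl fun i _ => by rw [ht]
    rw [h2]
    exact le_iSup_of_le n (le_iSup_of_le ξ (le_iSup_of_le _ (le_iSup_of_le (sys_of ht hs) le_rfl)))

end bridge

/-- There is an absolute constant `δ > 0` such that II_1 factors at distance less than `δ` have the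
same coupling constant; and the dimension `vnDim` is the usual one. -/
theorem result : (∃ δ : ℝ, 0 < δ ∧ CloseFactorsEqualDim δ) ∧ DimensionFormula := by
  obtain ⟨h1, δ, hδ, h2⟩ := Run7.h989.CC.Sub.main_sub
  refine ⟨⟨δ, hδ, ?_⟩, ?_⟩
  · intro H _ _ _ M N τ σ hM hN hd
    obtain ⟨t, ht, ht'⟩ := exists_lin hM
    obtain ⟨s, hs, hs'⟩ := exists_lin hN
    rw [vnDim_bridge ht', vnDim_bridge hs']
    exact h2 H M N t s ht hs hd
  · classical
    intro H _ _ _ M τ hM ι ξ p hs hc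
    obtain ⟨t, ht, ht'⟩ := exists_lin hM
    have hs' : Run7.h989.CC.Sub.IsSystem M t ξ
        fun i => (⟨p i, (hs.proj i).1⟩ : M.toStarSubalgebra) := sys_iff ht' hs
    rw [vnDim_bridge ht', h1 H M t ht ι ξ _ hs' hc]
    exact tsum_congr fun i => by rw [ht']

end Pool.Agent.Results.MP_41729c_an.EqualCoupling
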